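import Pool.Agent.T2h14.CL.Core

/-!
# Nesting fields: the Markov property of a Gaussian field
-/

set_option autoImplicit false

namespace Pool.Agent.T2h14.CL

open MeasureTheory ProbabilityTheory
open scoped ENNReal NNReal

theorem isTest_scaled {φ : ℂ → ℝ} (hφ : IsMollifier φ) {U : Set ℂ} {z₀ : ℂ} {r : ℝ} (hr : 0 < r)
    (h : Metric.closedBall z₀ r ⊆ U) : IsTest U (scaled φ z₀ r) := by
  have hs : tsupport (scaled φ z₀ r) ⊆ Metric.closedBall z₀ r := by
    refine closure_minimal (fun z hz => ?_) Metric.isClosed_closedBall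
    have h1 : φ ((z - z₀) / r) ≠ 0 := by
      intro h0
      apply hz
      simp [scaled, h0]
    have h2 : (z - z₀) / r ∈ Metric.closedBall (0 : ℂ) 1 :=
      hφ.supp (subset_tsupport _ h1)
    rw [mem_closedBall_zero_iff, norm_div, Complex.norm_real, Real.norm_of_nonneg hr.le,
      div_le_one hr] at h2
    rw [Metric.mem_closedBall, dist_eq_norm]
    exact h2
  refine ⟨?_, ?_, hs.trans h⟩
  · have h1 : ContDiff ℝ ((⊤ : ℕ∞) : WithTop ℕ∞) (fun z : ℂ => (z - z₀) / r) := by
      have : (fun z : ℂ => (z - z₀) / r) = fun z : ℂ => (r⁻¹ : ℝ) • (z - z₀) := by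
        funext z
        rw [Complex.real_smul, div_eq_inv_mul]
        push_cast
        rfl
      rw [this]
      fun_prop
    exact contDiff_const.mul (ContDiff.comp hφ.smooth h1)
  · exact HasCompactSupport.intro' (isCompact_closedBall z₀ r) Metric.isClosed_closedBall
      (fun z hz => image_eq_zero_of_notMem_tsupport (fun h' => hz (hs h')))

variable {N : Data} {κ : ℝ} {μ : Measure ℝ} {D : Set ℂ} {z₀ : ℂ} {φ : ℂ → ℝ}

theorem law_ex (hF : N.Field D) (hG : N.IsGaussianField D) (hD : IsDom D) {U : Set ℂ}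
    (hU : IsDom U) {g : ℂ → ℝ} (hg : IsTest U g) (z : ℝ) :
    ∫⁻ y, ex z y ∂(N.law U g) =
      ENNReal.ofReal (Real.exp (z ^ 2 * (∫ y, y ^ 2 ∂(N.law U g)) / 2)) := by
  obtain ⟨g', hg', h⟩ := hF.conf U D g hU hD hg
  obtain ⟨x, v, hv⟩ := hG g' hg'
  have hc := hF.centred U g hU hg
  rw [← h, hv] at hc ⊢
  exact gauss_ex x v z hc

theorem averages [IsProbabilityMeasure μ] (hφ : IsMollifier φ) (hD : IsDom D) (hz₀ : z₀ ∈ D)
    (hK : Koebe z₀ φ) (hN : N.IsNestingField κ μ D z₀ φ) (hG : N.IsGaussianField D) :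
    ∃ a M M' : ℝ, 0 ≤ a ∧ Averages N.P (N.T D z₀) μ a (N.drift μ D z₀) M M' := by
  obtain ⟨a, M, ha, hM⟩ := hN.logVariance
  obtain ⟨M', hM'⟩ := hK.average
  refine ⟨a, M, M', ha, fun t ht => ?_⟩
  have hF := hN.field
  have hL := hN.loops
  haveI := hL.prob
  set R : ℝ := confRadius D z₀ with hR
  have hR0 : 0 < R := hK.pos D hD hz₀
  set r : ℝ := R * Real.exp (-t) / 8 with hr
  have hr0 : 0 < r := by positivity
  have h8 : 8 * r = R * Real.exp (-t) := by rw [hr]; ring
  have h8R : 8 * r ≤ R := by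
    rw [h8]
    exact mul_le_of_le_one_right hR0.le (Real.exp_le_one_iff.2 (by linarith))
  have hlog8 : Real.log (8 * r) = Real.log R - t := by
    rw [h8, Real.log_mul hR0.ne' (Real.exp_pos _).ne', Real.log_exp]
    ring
  have hlogr : Real.log r = Real.log R - t - Real.log 8 := by
    rw [Real.log_mul (by norm_num) hr0.ne'] at hlog8
    linarith
  have hlarge : ∀ n, N.Large z₀ n r = {ω | N.T D z₀ n ω ≤ t} := by
    intro n
    ext ω
    have h1 : 0 < confRadius (N.dom n ω) z₀ := hK.pos _ (hL.isDom n ω) (hL.mem n ω)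
    change 8 * r ≤ confRadius (N.dom n ω) z₀ ↔
      Real.log R - Real.log (confRadius (N.dom n ω) z₀) ≤ t
    rw [← Real.log_le_log_iff (by positivity) h1, hlog8]
    constructor <;> intro h <;> linarith
  have htest : ∀ U, IsDom U → z₀ ∈ U → 8 * r ≤ confRadius U z₀ → IsTest U (scaled φ z₀ r) :=
    fun U hU hz h => isTest_scaled hφ hr0 (hK.disk U r hU hz hr0 h)
  have hDt := htest D hD hz₀ h8R
  have hmeasT := hL.meas
  set V : ℝ := ∫ x, x ^ 2 ∂(N.law D (scaled φ z₀ r)) with hV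
  have hVb := hM D r hD hz₀ hr0 h8R
  rw [← hV, ← hR, Real.log_div hR0.ne' hr0.ne', hlogr] at hVb
  refine ⟨N.X (scaled φ z₀ r), V, hF.meas _ hDt, ?_, fun z => ⟨?_, fun n => ?_⟩⟩
  · have := (abs_le.1 hVb).2
    nlinarith
  · rw [← lintegral_map (ex_meas z) (hF.meas _ hDt), hF.map _ hDt]
    exact law_ex hF hG hD hD hDt z
  · have hset : MeasurableSet {ω | N.T D z₀ n ω ≤ t} := measurableSet_le (hmeasT n) measurable_const
    -- the exponent
    set E : N.Ω → ℝ := fun ω =>
      z * (-(N.drift μ D z₀ * (avLog φ z₀ r D - avLog φ z₀ r (N.dom n ω)))) +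
        z ^ 2 * (∫ y, y ^ 2 ∂(N.law (N.dom n ω) (scaled φ z₀ r))) / 2 with hE
    have hid : ∫⁻ ω in {ω | N.T D z₀ n ω ≤ t}, ex z (N.X (scaled φ z₀ r) ω) ∂N.P =
        ∫⁻ ω in {ω | N.T D z₀ n ω ≤ t}, Lap μ z ^ n * ENNReal.ofReal (Real.exp (E ω)) ∂N.P := by
      have h1 := hN.markov n r hr0 (ex z) (ex_meas z)
      rw [hlarge] at h1
      rw [h1]
      refine setLIntegral_congr_fun hset (fun ω hω => ?_)
      have hω' : 8 * r ≤ confRadius (N.dom n ω) z₀ := by
        rw [← hlarge] at hω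
        exact hω
      change ∫⁻ s, ∫⁻ y, ex z (s - N.drift μ D z₀ * (avLog φ z₀ r D - avLog φ z₀ r (N.dom n ω)) + y)
        ∂(N.law (N.dom n ω) (scaled φ z₀ r)) ∂(sumLaw μ n) =
          Lap μ z ^ n * ENNReal.ofReal (Real.exp (E ω))
      rw [double, lap_sumLaw, law_ex hF hG hD (hL.isDom n ω)
        (htest _ (hL.isDom n ω) (hL.mem n ω) hω'), ex, ← ENNReal.ofReal_mul (Real.exp_nonneg _),
        ← Real.exp_add]
    have hEb : ∀ ω ∈ {ω | N.T D z₀ n ω ≤ t},
        |E ω - (z ^ 2 * V / 2) - -(N.drift μ D z₀ * z + a * z ^ 2 / 2) * N.T D z₀ n ω| ≤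
          2 * |N.drift μ D z₀ * z| * M' + z ^ 2 * M := by
      intro ω hω
      have hω' : 8 * r ≤ confRadius (N.dom n ω) z₀ := by
        rw [← hlarge] at hω
        exact hω
      have hp : 0 < confRadius (N.dom n ω) z₀ := hK.pos _ (hL.isDom n ω) (hL.mem n ω)
      have h1 := hM' D r hD hz₀ hr0 h8R
      have h2 := hM' _ r (hL.isDom n ω) (hL.mem n ω) hr0 hω'
      have h3 := hM _ r (hL.isDom n ω) (hL.mem n ω) hr0 hω'
      rw [Real.log_div hp.ne' hr0.ne', hlogr] at h3
      rw [← hR] at h1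
      set v : ℝ := ∫ y, y ^ 2 ∂(N.law (N.dom n ω) (scaled φ z₀ r)) with hv
      set δ₁ : ℝ := avLog φ z₀ r D - Real.log R with hδ₁
      set δ₂ : ℝ := avLog φ z₀ r (N.dom n ω) - Real.log (confRadius (N.dom n ω) z₀) with hδ₂
      set ε₁ : ℝ := V - a * (Real.log R - (Real.log R - t - Real.log 8)) with hε₁
      set ε₂ : ℝ := v - a * (Real.log (confRadius (N.dom n ω) z₀) -
        (Real.log R - t - Real.log 8)) with hε₂
      have hT : N.T D z₀ n ω = Real.log R - Real.log (confRadius (N.dom n ω) z₀) := rfl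
      have key : E ω - (z ^ 2 * V / 2) - -(N.drift μ D z₀ * z + a * z ^ 2 / 2) * N.T D z₀ n ω =
          -(N.drift μ D z₀ * z) * (δ₁ - δ₂) + z ^ 2 * ((ε₂ - ε₁) / 2) := by
        simp only [hE]
        rw [hT, hδ₁, hδ₂, hε₁, hε₂, ← hv]
        ring
      rw [key]
      refine (abs_add_le _ _).trans (add_le_add ?_ ?_)
      · rw [abs_mul, abs_neg, mul_comm 2, mul_assoc]
        refine mul_le_mul_of_nonneg_left ?_ (abs_nonneg _)
        refine (abs_sub _ _).trans ?_
        linarith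
      · rw [abs_mul, abs_of_nonneg (sq_nonneg z)]
        refine mul_le_mul_of_nonneg_left ?_ (sq_nonneg z)
        rw [abs_div, abs_two, div_le_iff₀ (by norm_num : (0 : ℝ) < 2)]
        refine (abs_sub _ _).trans ?_
        linarith
    have hexpm : Measurable fun ω => ENNReal.ofReal
        (Real.exp (-(N.drift μ D z₀ * z + a * z ^ 2 / 2) * N.T D z₀ n ω)) :=
      ENNReal.measurable_ofReal.comp (Real.measurable_exp.comp ((hmeasT n).const_mul _))
    rw [hid]
    constructor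
    · rw [← lintegral_const_mul _ hexpm, ← lintegral_const_mul' _ _ ENNReal.ofReal_ne_top]
      refine setLIntegral_mono' hset (fun ω hω => ?_)
      rw [mul_assoc, mul_left_comm (ENNReal.ofReal _) (Lap μ z ^ n)]
      refine mul_le_mul_right ?_ _
      rw [← ENNReal.ofReal_mul (Real.exp_nonneg _), ← Real.exp_add,
        ← ENNReal.ofReal_mul (Real.exp_nonneg _), ← Real.exp_add]
      refine ENNReal.ofReal_le_ofReal (Real.exp_le_exp.2 ?_)
      have := (abs_le.1 (hEb ω hω)).1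
      linarith
    · rw [← lintegral_const_mul _ hexpm, ← lintegral_const_mul' _ _ ENNReal.ofReal_ne_top]
      refine setLIntegral_mono' hset (fun ω hω => ?_)
      rw [mul_assoc (Lap μ z ^ n), mul_left_comm (ENNReal.ofReal _) (Lap μ z ^ n)]
      refine mul_le_mul_right ?_ _
      rw [← ENNReal.ofReal_mul (Real.exp_nonneg _), ← Real.exp_add,
        ← ENNReal.ofReal_mul (Real.exp_nonneg _), ← Real.exp_add]
      refine ENNReal.ofReal_le_ofReal (Real.exp_le_exp.2 ?_)
      have := (abs_le.1 (hEb ω hω)).2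
      linarith

end Pool.Agent.T2h14.CL
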