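import Pool.Agent.T2h14.CL.Core

/-!
# Nesting fields: analytic continuation
-/

set_option autoImplicit false

namespace Pool.Agent.T2h14.CL

open MeasureTheory ProbabilityTheory Filter Topology
open scoped ENNReal NNReal

/-- The Laplace transform as a real number. -/
theorem lap_toReal (μ : Measure ℝ) {z : ℝ} (hz : Lap μ z ≠ ∞) :
    Integrable (fun x => Real.exp (z * x)) μ ∧ (Lap μ z).toReal = mgf id μ z := by
  have hm : AEStronglyMeasurable (fun x : ℝ => Real.exp (z * x)) μ := by fun_prop
  have hi : Integrable (fun x => Real.exp (z * x)) μ := by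
    refine ⟨hm, ?_⟩
    rw [hasFiniteIntegral_iff_ofReal (Eventually.of_forall fun y => Real.exp_nonneg _)]
    exact lt_top_iff_ne_top.2 hz
  refine ⟨hi, ?_⟩
  rw [mgf]
  simp only [id]
  rw [integral_eq_lintegral_of_nonneg_ae (Eventually.of_forall fun y => Real.exp_nonneg _) hm]
  rfl

/-- The argument of the cosine. -/
noncomputable def arg2 (c p s : ℝ) (z : ℂ) : ℂ := (c : ℂ) ^ 2 - p * z - s * z ^ 2

theorem cos_root_sq {u : ℂ} (hu : 0 < u.re) : (u ^ 2) ^ (1 / 2 : ℂ) = u := by
  have h := Complex.pow_cpow_nat_inv (x := u) (n := 2) two_ne_zero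
    (by
      have := (Complex.abs_arg_lt_pi_div_two_iff.2 (Or.inl hu))
      have := (abs_lt.1 this).1
      push_cast
      exact this)
    (by
      have := (Complex.abs_arg_lt_pi_div_two_iff.2 (Or.inl hu))
      have := (abs_lt.1 this).2
      push_cast
      exact this.le)
  have e : (1 / 2 : ℂ) = ((2 : ℕ) : ℂ)⁻¹ := by norm_num
  rw [e]
  exact h

/-- The continuation of the equation to the imaginary axis. -/
theorem continuation {μ : Measure ℝ} [IsProbabilityMeasure μ] (hfin : ∀ z, Lap μ z ≠ ∞)
    {c p s ε : ℝ} (hc : c ≠ 0) (hs : 0 ≤ s) (hε : 0 < ε)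
    (h : ∀ z : ℝ, |z| < ε → 0 ≤ c ^ 2 - p * z - s * z ^ 2 ∧
      mgf id μ z * Real.cos (Real.pi * c) = Real.cos (Real.pi * √(c ^ 2 - p * z - s * z ^ 2)))
    (θ : ℝ) :
    complexMGF id μ (Complex.I * θ) * Complex.cos (Real.pi * c) =
      Complex.cos (Real.pi * (arg2 c p s (Complex.I * θ)) ^ (1 / 2 : ℂ)) := by
  have hset : integrableExpSet id μ = Set.univ := by
    ext z
    simp only [integrableExpSet, Set.mem_setOf_eq, Set.mem_univ, iff_true, id]
    exact (lap_toReal μ (hfin z)).1
  have hF : ∀ z : ℂ, AnalyticAt ℂ (complexMGF id μ) z := fun z =>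
    analyticAt_complexMGF (by rw [hset]; simp)
  set f : ℂ → ℂ := fun z => complexMGF id μ z * Complex.cos (Real.pi * c) with hf
  set g : ℂ → ℂ := fun z => Complex.cos (Real.pi * (arg2 c p s z) ^ (1 / 2 : ℂ)) with hg
  set S : Set ℂ := {z : ℂ | z.re = 0} with hS
  have hSpre : IsPreconnected S := by
    have : Convex ℝ S := by
      intro x hx y hy a b _ _ _
      simp only [hS, Set.mem_setOf_eq] at hx hy ⊢
      simp [hx, hy]
    exact this.isPreconnected
  have harg : ∀ z : ℂ, AnalyticAt ℂ (arg2 c p s) z := by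
    intro z
    unfold arg2
    fun_prop
  have hslit : ∀ z ∈ S, arg2 c p s z ∈ Complex.slitPlane := by
    intro z hz
    have hz' : z.re = 0 := hz
    left
    have hre : (arg2 c p s z).re = c ^ 2 + s * z.im ^ 2 := by
      simp only [arg2, Complex.sub_re, Complex.mul_re, Complex.ofReal_re, Complex.ofReal_im,
        pow_two, hz']
      ring
    rw [hre]
    have : 0 < c ^ 2 := by positivity
    positivity
  have hfA : AnalyticOnNhd ℂ f S := fun z _ => (hF z).mul analyticAt_const
  have hgA : AnalyticOnNhd ℂ g S := fun z hz => by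
    have h1 : AnalyticAt ℂ (fun z => (arg2 c p s z) ^ (1 / 2 : ℂ)) z :=
      (harg z).cpow analyticAt_const (hslit z hz)
    exact Complex.analyticAt_cos.comp' (analyticAt_const.mul h1)
  have h0 : (0 : ℂ) ∈ S := by simp [hS]
  have hev : f =ᶠ[𝓝 0] g := by
    refine ((hfA 0 h0).frequently_eq_iff_eventually_eq (hgA 0 h0)).1 ?_
    -- the real points
    have hreal : ∀ x : ℝ, |x| < ε → f x = g x := by
      intro x hx
      obtain ⟨h1, h2⟩ := h x hx
      simp only [hf, hg]
      rw [complexMGF_ofReal]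
      have e1 : arg2 c p s x = ((c ^ 2 - p * x - s * x ^ 2 : ℝ) : ℂ) := by
        simp [arg2]
      have e2 : ((c ^ 2 - p * x - s * x ^ 2 : ℝ) : ℂ) ^ (1 / 2 : ℂ) =
          ((√(c ^ 2 - p * x - s * x ^ 2) : ℝ) : ℂ) := by
        rw [Real.sqrt_eq_rpow, Complex.ofReal_cpow h1]
        norm_num
      rw [e1, e2]
      exact_mod_cast h2
    have ht : Tendsto (fun n : ℕ => ((ε / (n + 2) : ℝ) : ℂ)) atTop (𝓝[≠] 0) := by
      rw [tendsto_nhdsWithin_iff]
      constructor
      · have h3 : Tendsto (fun n : ℕ => (ε / (n + 2) : ℝ)) atTop (𝓝 0) := by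
          refine Tendsto.div_atTop tendsto_const_nhds ?_
          exact tendsto_atTop_add_const_right _ _ tendsto_natCast_atTop_atTop
        have h4 := (Complex.continuous_ofReal.tendsto 0).comp h3
        rw [Complex.ofReal_zero] at h4
        exact h4
      · refine Eventually.of_forall (fun n => ?_)
        simp only [Set.mem_compl_iff, Set.mem_singleton_iff, Complex.ofReal_eq_zero]
        positivity
    refine ht.frequently (Frequently.of_forall (fun n => ?_))
    apply hreal
    rw [abs_of_pos (by positivity), div_lt_iff₀ (by positivity)]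
    have : (0 : ℝ) ≤ n := Nat.cast_nonneg n
    nlinarith
  have hθ : Complex.I * θ ∈ S := by simp [hS]
  exact hfA.eqOn_of_preconnected_of_eventuallyEq hgA hSpre h0 hev hθ

/-- If `mgf = 1` at `z` and `-z`, `z ≠ 0`, then the law is a point mass. -/
theorem eq_dirac {μ : Measure ℝ} [IsProbabilityMeasure μ] (hfin : ∀ z, Lap μ z ≠ ∞) {z : ℝ}
    (hz : z ≠ 0) (h1 : mgf id μ z = 1) (h2 : mgf id μ (-z) = 1) : μ = Measure.dirac 0 := by
  have i1 := (lap_toReal μ (hfin z)).1
  have i2 := (lap_toReal μ (hfin (-z))).1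
  have h3 : ∫ x, (Real.exp (z * x) + Real.exp (-z * x) - 2) ∂μ = 0 := by
    have i3 : Integrable (fun x => Real.exp (z * x) + Real.exp (-z * x)) μ := i1.add i2
    rw [integral_sub i3 (integrable_const _), integral_add i1 i2]
    rw [mgf] at h1 h2
    simp only [id] at h1 h2
    rw [h1, h2]
    simp
    norm_num
  have hid : ∀ x : ℝ, Real.exp (z * x) + Real.exp (-z * x) - 2 =
      (Real.exp (z * x / 2) - Real.exp (-(z * x / 2))) ^ 2 := by
    intro x
    have e1 : Real.exp (z * x) = Real.exp (z * x / 2) * Real.exp (z * x / 2) := by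
      rw [← Real.exp_add]; congr 1; ring
    have e2 : Real.exp (-z * x) = Real.exp (-(z * x / 2)) * Real.exp (-(z * x / 2)) := by
      rw [← Real.exp_add]; congr 1; ring
    have e3 : Real.exp (z * x / 2) * Real.exp (-(z * x / 2)) = 1 := by
      rw [← Real.exp_add]; simp
    rw [e1, e2]
    linear_combination (2 : ℝ) * e3
  have hae : ∀ᵐ x ∂μ, x = 0 := by
    have h4 : (fun x => Real.exp (z * x) + Real.exp (-z * x) - 2) =ᵐ[μ] 0 := by
      have i5 : Integrable (fun x => Real.exp (z * x) + Real.exp (-z * x) - 2) μ :=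
        (i1.add i2).sub (integrable_const _)
      refine (integral_eq_zero_iff_of_nonneg (fun x => ?_) i5).1 h3
      simp only [Pi.zero_apply]
      rw [hid]
      positivity
    filter_upwards [h4] with x hx
    simp only [Pi.zero_apply] at hx
    rw [hid, sq_eq_zero_iff, sub_eq_zero, Real.exp_eq_exp] at hx
    have : z * x = 0 := by linarith
    exact (mul_eq_zero.1 this).resolve_left hz
  calc μ = μ.map id := Measure.map_id.symm
    _ = μ.map (fun _ => (0 : ℝ)) := Measure.map_congr (by
        filter_upwards [hae] with x hx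
        simp [hx])
    _ = Measure.dirac 0 := by simp [Measure.map_const]

end Pool.Agent.T2h14.CL
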