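import Pool.Agent.T2h14.CL.Stm

/-!
# Nesting fields: exponential moments
-/

set_option autoImplicit false

namespace Pool.Agent.T2h14.CL

open MeasureTheory ProbabilityTheory
open scoped ENNReal NNReal

/-- The exponential `exp (z x)`. -/
noncomputable def ex (z x : ℝ) : ℝ≥0∞ := ENNReal.ofReal (Real.exp (z * x))

/-- The Laplace transform. -/
noncomputable def Lap (μ : Measure ℝ) (z : ℝ) : ℝ≥0∞ := ∫⁻ x, ex z x ∂μ

theorem ex_add (z x y : ℝ) : ex z (x + y) = ex z x * ex z y := by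
  rw [ex, ex, ex, ← ENNReal.ofReal_mul (Real.exp_nonneg _), ← Real.exp_add, mul_add]

theorem ex_meas (z : ℝ) : Measurable (ex z) := by
  unfold ex
  fun_prop

theorem ex_ne_top (z x : ℝ) : ex z x ≠ ∞ := ENNReal.ofReal_ne_top

instance sumLaw_prob (μ : Measure ℝ) [IsProbabilityMeasure μ] (n : ℕ) :
    IsProbabilityMeasure (sumLaw μ n) := by
  induction n with
  | zero => rw [sumLaw]; infer_instance
  | succ n ih => rw [sumLaw]; infer_instance

theorem lap_sumLaw (μ : Measure ℝ) [IsProbabilityMeasure μ] (z : ℝ) (n : ℕ) :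
    ∫⁻ x, ex z x ∂(sumLaw μ n) = (Lap μ z) ^ n := by
  induction n with
  | zero => simp [sumLaw, lintegral_dirac' _ (ex_meas z), ex]
  | succ n ih =>
    rw [sumLaw, Measure.lintegral_conv (ex_meas z)]
    have h : ∀ x : ℝ, ∫⁻ y, ex z (x + y) ∂μ = ex z x * Lap μ z := by
      intro x
      simp_rw [ex_add]
      rw [lintegral_const_mul _ (ex_meas z), Lap]
    simp_rw [h]
    rw [lintegral_mul_const _ (ex_meas z), ih, pow_succ]

theorem gauss_ex (x : ℝ) (v : ℝ≥0) (z : ℝ) (h : ∫ y, y ∂(gaussianReal x v) = 0) :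
    ∫⁻ y, ex z y ∂(gaussianReal x v) =
      ENNReal.ofReal (Real.exp (z ^ 2 * (∫ y, y ^ 2 ∂(gaussianReal x v)) / 2)) := by
  have hx : x = 0 := by rwa [integral_id_gaussianReal] at h
  subst hx
  have hv : ∫ y, y ^ 2 ∂(gaussianReal 0 v) = v := by
    have h1 := variance_of_integral_eq_zero (μ := gaussianReal 0 v) (X := fun y : ℝ => y)
      (by fun_prop) (by simp)
    rw [variance_fun_id_gaussianReal] at h1
    exact h1.symm
  have h2 : ∫ y, Real.exp (z * y) ∂(gaussianReal 0 v) = Real.exp (z ^ 2 * v / 2) := by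
    have h3 := congrFun (mgf_fun_id_gaussianReal (μ := 0) (v := v)) z
    rw [mgf] at h3
    rw [h3]
    congr 1
    ring
  rw [hv, ← h2, ofReal_integral_eq_lintegral_ofReal (integrable_exp_mul_gaussianReal z)
    (Filter.Eventually.of_forall fun y => Real.exp_nonneg _)]
  rfl

/-- The double integral in the Markov property. -/
theorem double (ν ρ : Measure ℝ) (z s : ℝ) :
    ∫⁻ x, ∫⁻ y, ex z (x - s + y) ∂ρ ∂ν = (∫⁻ x, ex z x ∂ν) * (ex z (-s) * ∫⁻ y, ex z y ∂ρ) := by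
  have h : ∀ x : ℝ, ∫⁻ y, ex z (x - s + y) ∂ρ = ex z x * (ex z (-s) * ∫⁻ y, ex z y ∂ρ) := by
    intro x
    have h1 : ∀ y, ex z (x - s + y) = (ex z x * ex z (-s)) * ex z y := by
      intro y
      rw [ex_add, sub_eq_add_neg, ex_add]
    simp_rw [h1]
    rw [lintegral_const_mul _ (ex_meas z), mul_assoc]
  simp_rw [h]
  rw [lintegral_mul_const _ (ex_meas z)]

/-- The facts on the averages of the field which are used. -/
def Averages {Ω : Type} [MeasurableSpace Ω] (P : Measure Ω) (T : ℕ → Ω → ℝ) (μ : Measure ℝ)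
    (a m M M' : ℝ) : Prop :=
  ∀ t : ℝ, 0 ≤ t → ∃ (X : Ω → ℝ) (V : ℝ), Measurable X ∧ V ≤ a * (t + Real.log 8) + M ∧
    ∀ z : ℝ, ∫⁻ ω, ex z (X ω) ∂P = ENNReal.ofReal (Real.exp (z ^ 2 * V / 2)) ∧
    ∀ n : ℕ,
      Lap μ z ^ n * ENNReal.ofReal (Real.exp (-(2 * |m * z| * M' + z ^ 2 * M))) *
          ∫⁻ ω in {ω | T n ω ≤ t}, ENNReal.ofReal (Real.exp (-(m * z + a * z ^ 2 / 2) * T n ω)) ∂P ≤
        ENNReal.ofReal (Real.exp (-(z ^ 2 * V / 2))) * ∫⁻ ω in {ω | T n ω ≤ t}, ex z (X ω) ∂P ∧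
      ENNReal.ofReal (Real.exp (-(z ^ 2 * V / 2))) * ∫⁻ ω in {ω | T n ω ≤ t}, ex z (X ω) ∂P ≤
        Lap μ z ^ n * ENNReal.ofReal (Real.exp (2 * |m * z| * M' + z ^ 2 * M)) *
          ∫⁻ ω in {ω | T n ω ≤ t}, ENNReal.ofReal (Real.exp (-(m * z + a * z ^ 2 / 2) * T n ω)) ∂P

end Pool.Agent.T2h14.CL
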