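import Pool.Agent.T2h14.CL.Core

/-!
# Nesting fields: the equation for the Laplace transform of the weights
-/

set_option autoImplicit false

namespace Pool.Agent.T2h14.CL

open MeasureTheory ProbabilityTheory Filter Topology
open scoped ENNReal NNReal

variable {Ω : Type} [MeasurableSpace Ω] {P : Measure Ω} [IsProbabilityMeasure P]
  {T : ℕ → Ω → ℝ} {μ : Measure ℝ} {a m M M' : ℝ}

/-- The conditions on the exponential moments. -/
def Moments (P : Measure Ω) (T : ℕ → Ω → ℝ) (l₀ l₁ : ℝ) (q : ℝ → ℝ) : Prop :=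
  ∀ (n : ℕ) (l : ℝ), l₀ < l → l < l₁ → Integrable (fun ω => Real.exp (l * T n ω)) P ∧
    ∫ ω, Real.exp (l * T n ω) ∂P = q l ^ n

theorem lint_exp {l₀ l₁ : ℝ} {q : ℝ → ℝ} (hq : Moments P T l₀ l₁ q) {l : ℝ} (h0 : l₀ < l)
    (h1 : l < l₁) (n : ℕ) :
    ∫⁻ ω, ENNReal.ofReal (Real.exp (l * T n ω)) ∂P = ENNReal.ofReal (q l ^ n) := by
  rw [← (hq n l h0 h1).2, ofReal_integral_eq_lintegral_ofReal (hq n l h0 h1).1
    (Eventually.of_forall fun y => Real.exp_nonneg _)]

theorem q_pos {l₀ l₁ : ℝ} {q : ℝ → ℝ} (hq : Moments P T l₀ l₁ q) {l : ℝ} (h0 : l₀ < l)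
    (h1 : l < l₁) : 0 < q l := by
  have h := hq 1 l h0 h1
  rw [pow_one] at h
  rw [← h.2]
  exact integral_exp_pos h.1

/-- The first inequality. -/
theorem upper (hA : Averages P T μ a m M M') {t : ℝ} (ht : 0 ≤ t) (z : ℝ) (n : ℕ) :
    Lap μ z ^ n * ENNReal.ofReal (Real.exp (-(2 * |m * z| * M' + z ^ 2 * M))) *
      ∫⁻ ω in {ω | T n ω ≤ t}, ENNReal.ofReal (Real.exp (-(m * z + a * z ^ 2 / 2) * T n ω)) ∂P ≤
        1 := by
  obtain ⟨X, V, hX, hV, h⟩ := hA t ht
  refine (h z).2 n |>.1.trans ?_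
  have h1 : ∫⁻ ω in {ω | T n ω ≤ t}, ex z (X ω) ∂P ≤ ENNReal.ofReal (Real.exp (z ^ 2 * V / 2)) := by
    rw [← (h z).1]
    exact setLIntegral_le_lintegral _ _
  refine (mul_le_mul' le_rfl h1).trans ?_
  rw [← ENNReal.ofReal_mul (Real.exp_nonneg _), ← Real.exp_add]
  simp

/-- The Laplace transform of the weights is finite everywhere. -/
theorem lap_ne_top {l₀ l₁ : ℝ} {q : ℝ → ℝ} (h0 : l₀ < 0) (h1 : 0 < l₁)
    (hq : Moments P T l₀ l₁ q) (hT : ∀ n, Measurable (T n))
    (hA : Averages P T μ a m M M') (z : ℝ) : Lap μ z ≠ ∞ := by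
  intro htop
  -- a level `t` with `P (T 1 ≤ t) > 0`
  have hex : ∃ t : ℝ, 0 ≤ t ∧ P {ω | T 1 ω ≤ t} ≠ 0 := by
    by_contra hcon
    push Not at hcon
    have h2 : P (⋃ k : ℕ, {ω | T 1 ω ≤ (k : ℝ)}) = 0 :=
      measure_iUnion_null fun k => hcon k (Nat.cast_nonneg k)
    have h3 : (⋃ k : ℕ, {ω | T 1 ω ≤ (k : ℝ)}) = Set.univ := by
      ext ω
      simp only [Set.mem_iUnion, Set.mem_setOf_eq, Set.mem_univ, iff_true]
      exact exists_nat_ge _
    rw [h3] at h2
    simp at h2
  obtain ⟨t, ht, hPt⟩ := hex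
  have h2 := upper hA ht z 1
  have hexpm : Measurable fun ω => ENNReal.ofReal
      (Real.exp (-(m * z + a * z ^ 2 / 2) * T 1 ω)) :=
    ENNReal.measurable_ofReal.comp (Real.measurable_exp.comp ((hT 1).const_mul _))
  have h3 : ∫⁻ ω in {ω | T 1 ω ≤ t},
      ENNReal.ofReal (Real.exp (-(m * z + a * z ^ 2 / 2) * T 1 ω)) ∂P ≠ 0 := by
    rw [Ne, lintegral_eq_zero_iff hexpm]
    intro h4
    apply hPt
    rw [← Measure.restrict_apply_univ]
    refine measure_mono_null (fun ω _ => ?_) h4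
    simp only [Set.mem_compl_iff, Set.mem_setOf_eq]
    intro h5
    have h6 : ENNReal.ofReal (Real.exp (-(m * z + a * z ^ 2 / 2) * T 1 ω)) = 0 := h5
    rw [ENNReal.ofReal_eq_zero] at h6
    exact absurd h6 (not_le.2 (Real.exp_pos _))
  rw [htop, pow_one, ENNReal.top_mul (by simp [Real.exp_pos]), ENNReal.top_mul h3] at h2
  exact absurd h2 (by simp)

/-- If all powers of `x ≥ 0` are at most `C` then `x ≤ 1`. -/
theorem le_one_of_pow {x C : ℝ} (h : ∀ n : ℕ, x ^ n ≤ C) : x ≤ 1 := by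
  by_contra hx
  push Not at hx
  obtain ⟨n, hn⟩ := pow_unbounded_of_one_lt C hx
  exact absurd (h n) (not_le.2 hn)

/-- If all powers of `x ≥ 0` are at least `c > 0` then `x ≥ 1`. -/
theorem one_le_of_pow {x c : ℝ} (hx0 : 0 ≤ x) (hc : 0 < c) (h : ∀ n : ℕ, c ≤ x ^ n) : 1 ≤ x := by
  by_contra hx
  push Not at hx
  obtain ⟨n, hn⟩ := exists_pow_lt_of_lt_one hc hx
  exact absurd (h n) (not_le.2 hn)

/-- The value of the Laplace transform, upper bound. -/
theorem lap_le {l₀ l₁ : ℝ} {q : ℝ → ℝ} (hq : Moments P T l₀ l₁ q) (hT : ∀ n, Measurable (T n))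
    (hA : Averages P T μ a m M M') {z : ℝ} (hz : Lap μ z ≠ ∞)
    (hw0 : l₀ < -(m * z + a * z ^ 2 / 2)) (hw1 : -(m * z + a * z ^ 2 / 2) < l₁) :
    (Lap μ z).toReal * q (-(m * z + a * z ^ 2 / 2)) ≤ 1 := by
  set w : ℝ := -(m * z + a * z ^ 2 / 2) with hw
  set C : ℝ := 2 * |m * z| * M' + z ^ 2 * M with hC
  set x : ℝ := (Lap μ z).toReal with hx
  have hx0 : 0 ≤ x := ENNReal.toReal_nonneg
  have hLx : Lap μ z = ENNReal.ofReal x := (ENNReal.ofReal_toReal hz).symm
  have hqw : 0 < q w := q_pos hq hw0 hw1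
  obtain ⟨w', hww', hw'1⟩ := exists_between hw1
  have hw'0 : l₀ < w' := hw0.trans hww'
  refine le_one_of_pow (C := Real.exp C) (fun n => ?_)
  -- for every `t`
  have key : ∀ t : ℝ, 0 ≤ t → x ^ n * Real.exp (-C) * q w ^ n ≤
      1 + x ^ n * Real.exp (-C) * (Real.exp (-((w' - w) * t)) * q w' ^ n) := by
    intro t ht
    have h1 := upper hA ht z n
    rw [← hC, ← hw, hLx, ← ENNReal.ofReal_pow hx0,
      ← ENNReal.ofReal_mul (pow_nonneg hx0 n)] at h1
    have hset : MeasurableSet {ω | T n ω ≤ t} := measurableSet_le (hT n) measurable_const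
    have h2 : ENNReal.ofReal (q w ^ n) ≤
        (∫⁻ ω in {ω | T n ω ≤ t}, ENNReal.ofReal (Real.exp (w * T n ω)) ∂P) +
          ENNReal.ofReal (Real.exp (-((w' - w) * t)) * q w' ^ n) := by
      rw [← lint_exp hq hw0 hw1 n, ENNReal.ofReal_mul (Real.exp_nonneg _),
        ← lint_exp hq hw'0 hw'1 n, ← lintegral_const_mul' _ _ ENNReal.ofReal_ne_top,
        ← lintegral_indicator hset, ← lintegral_add_left]
      · refine lintegral_mono (fun ω => ?_)
        change ENNReal.ofReal (Real.exp (w * T n ω)) ≤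
          Set.indicator {ω | T n ω ≤ t} (fun ω => ENNReal.ofReal (Real.exp (w * T n ω))) ω + _
        by_cases hω : T n ω ≤ t
        · rw [Set.indicator_of_mem (by exact hω)]
          exact le_self_add
        · refine le_add_left ?_
          rw [← ENNReal.ofReal_mul (Real.exp_nonneg _), ← Real.exp_add]
          refine ENNReal.ofReal_le_ofReal (Real.exp_le_exp.2 ?_)
          push Not at hω
          have : 0 < (w' - w) * (T n ω - t) := mul_pos (by linarith) (by linarith)
          nlinarith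
      · exact (ENNReal.measurable_ofReal.comp
          (Real.measurable_exp.comp ((hT n).const_mul _))).indicator hset
    have h3 : ENNReal.ofReal (x ^ n * Real.exp (-C)) * ENNReal.ofReal (q w ^ n) ≤
        1 + ENNReal.ofReal (x ^ n * Real.exp (-C)) *
          ENNReal.ofReal (Real.exp (-((w' - w) * t)) * q w' ^ n) := by
      refine (mul_le_mul' le_rfl h2).trans ?_
      rw [mul_add]
      exact add_le_add h1 le_rfl
    have hn0 : 0 ≤ x ^ n * Real.exp (-C) := by positivity
    have hq' : 0 < q w' := q_pos hq hw'0 hw'1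
    rw [← ENNReal.ofReal_mul hn0, ← ENNReal.ofReal_mul hn0, ← ENNReal.ofReal_one,
      ← ENNReal.ofReal_add zero_le_one (by positivity), ENNReal.ofReal_le_ofReal_iff
        (by positivity)] at h3
    exact h3
  have hlim : Tendsto (fun t : ℝ => 1 + x ^ n * Real.exp (-C) *
      (Real.exp (-((w' - w) * t)) * q w' ^ n)) atTop (𝓝 (1 + x ^ n * Real.exp (-C) *
        (0 * q w' ^ n))) := by
    refine tendsto_const_nhds.add (tendsto_const_nhds.mul (Tendsto.mul_const _ ?_))
    refine Real.tendsto_exp_neg_atTop_nhds_zero.comp ?_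
    exact Tendsto.const_mul_atTop (by linarith) tendsto_id
  have h4 : x ^ n * Real.exp (-C) * q w ^ n ≤ 1 + x ^ n * Real.exp (-C) * (0 * q w' ^ n) :=
    ge_of_tendsto hlim ((eventually_ge_atTop 0).mono key)
  rw [zero_mul, mul_zero, add_zero, Real.exp_neg] at h4
  rw [mul_pow]
  have h5 : x ^ n * (Real.exp C)⁻¹ * q w ^ n = (x ^ n * q w ^ n) / Real.exp C := by
    rw [div_eq_mul_inv]; ring
  rw [h5, div_le_one (Real.exp_pos _)] at h4
  exact h4

/-- The value of the Laplace transform, lower bound. -/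
theorem le_lap {l₀ l₁ : ℝ} {q : ℝ → ℝ} (h00 : l₀ < 0) (hq : Moments P T l₀ l₁ q)
    (hT : ∀ n, Measurable (T n))
    (hA : Averages P T μ a m M M') {z : ℝ} (hz : Lap μ z ≠ ∞)
    (hw0 : l₀ < -(m * z + a * z ^ 2 / 2)) (hw1 : -(m * z + a * z ^ 2 / 2) < l₁)
    {δ : ℝ} (hδ0 : 0 < δ) (hδ1 : δ < l₁) (hδ : z ^ 2 * a < δ) :
    1 ≤ (Lap μ z).toReal * q (-(m * z + a * z ^ 2 / 2)) := by
  set w : ℝ := -(m * z + a * z ^ 2 / 2) with hw
  set C : ℝ := 2 * |m * z| * M' + z ^ 2 * M with hC
  set x : ℝ := (Lap μ z).toReal with hx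
  have hx0 : 0 ≤ x := ENNReal.toReal_nonneg
  have hLx : Lap μ z = ENNReal.ofReal x := (ENNReal.ofReal_toReal hz).symm
  have hqw : 0 < q w := q_pos hq hw0 hw1
  have hqδ : 0 < q δ := q_pos hq (h00.trans hδ0) hδ1
  refine one_le_of_pow (c := Real.exp (-C)) (mul_nonneg hx0 hqw.le) (Real.exp_pos _) (fun n => ?_)
  have key : ∀ t : ℝ, 0 ≤ t → 1 ≤ x ^ n * Real.exp C * q w ^ n +
      (1 + q δ ^ n) * Real.exp (z ^ 2 * (a * (t + Real.log 8) + M) / 2 - δ * t / 2) := by
    intro t ht
    obtain ⟨X, V, hX, hV, h⟩ := hA t ht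
    have h1 := ((h z).2 n).2
    rw [← hC, ← hw, hLx, ← ENNReal.ofReal_pow hx0,
      ← ENNReal.ofReal_mul (pow_nonneg hx0 n)] at h1
    have hset : MeasurableSet {ω | T n ω ≤ t} := measurableSet_le (hT n) measurable_const
    -- the total integral
    have h2 : ENNReal.ofReal (Real.exp (z ^ 2 * V / 2)) ≤
        (∫⁻ ω in {ω | T n ω ≤ t}, ex z (X ω) ∂P) +
          (ENNReal.ofReal (Real.exp (-(z ^ 2 * V + δ * t / 2))) *
            ENNReal.ofReal (Real.exp ((2 * z) ^ 2 * V / 2)) +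
          ENNReal.ofReal (Real.exp (z ^ 2 * V - δ * t / 2)) * ENNReal.ofReal (q δ ^ n)) := by
      rw [← (h z).1, ← (h (2 * z)).1, ← lint_exp hq (h00.trans hδ0) hδ1 n,
        ← lintegral_const_mul' _ _ ENNReal.ofReal_ne_top,
        ← lintegral_const_mul' _ _ ENNReal.ofReal_ne_top,
        ← lintegral_indicator hset, ← lintegral_add_left, ← lintegral_add_left]
      · refine lintegral_mono (fun ω => ?_)
        change ex z (X ω) ≤
          Set.indicator {ω | T n ω ≤ t} (fun ω => ex z (X ω)) ω + (_ + _)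
        by_cases hω : T n ω ≤ t
        · rw [Set.indicator_of_mem (by exact hω)]
          exact le_self_add
        · refine le_add_left ?_
          rw [ex, ex, ← ENNReal.ofReal_mul (Real.exp_nonneg _), ← Real.exp_add,
            ← ENNReal.ofReal_mul (Real.exp_nonneg _), ← Real.exp_add,
            ← ENNReal.ofReal_add (Real.exp_nonneg _) (Real.exp_nonneg _)]
          refine ENNReal.ofReal_le_ofReal ?_
          push Not at hω
          -- `u v ≤ u² + v²`
          have h3 : Real.exp (z * X ω) ≤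
              Real.exp (-(z ^ 2 * V + δ * t / 2) + 2 * z * X ω) +
                Real.exp (z ^ 2 * V + δ * t / 2) := by
            set u : ℝ := Real.exp (-(z ^ 2 * V + δ * t / 2) / 2 + z * X ω) with hu
            set v : ℝ := Real.exp ((z ^ 2 * V + δ * t / 2) / 2) with hv
            have e1 : Real.exp (z * X ω) = u * v := by
              rw [hu, hv, ← Real.exp_add]; congr 1; ring
            have e2 : Real.exp (-(z ^ 2 * V + δ * t / 2) + 2 * z * X ω) = u * u := by
              rw [hu, ← Real.exp_add]; congr 1; ring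
            have e3 : Real.exp (z ^ 2 * V + δ * t / 2) = v * v := by
              rw [hv, ← Real.exp_add]; congr 1; ring
            rw [e1, e2, e3]
            nlinarith [sq_nonneg (u - v), sq_nonneg (u + v)]
          refine h3.trans (add_le_add le_rfl (Real.exp_le_exp.2 ?_))
          have : 0 < δ * (T n ω - t) := mul_pos hδ0 (by linarith)
          nlinarith
      · exact ((ex_meas z).comp hX).indicator hset
      · exact ((ex_meas (2 * z)).comp hX).const_mul _
    have h4 : (1 : ℝ≥0∞) ≤ ENNReal.ofReal (x ^ n * Real.exp C) * ENNReal.ofReal (q w ^ n) +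
        ENNReal.ofReal ((1 + q δ ^ n) * Real.exp (z ^ 2 * V / 2 - δ * t / 2)) := by
      have e0 : (1 : ℝ≥0∞) = ENNReal.ofReal (Real.exp (-(z ^ 2 * V / 2))) *
          ENNReal.ofReal (Real.exp (z ^ 2 * V / 2)) := by
        rw [← ENNReal.ofReal_mul (Real.exp_nonneg _), ← Real.exp_add]
        simp
      rw [e0]
      refine (mul_le_mul' le_rfl h2).trans ?_
      rw [mul_add]
      refine add_le_add (h1.trans (mul_le_mul' le_rfl ?_)) (le_of_eq ?_)
      · rw [← lint_exp hq hw0 hw1 n]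
        exact setLIntegral_le_lintegral _ _
      · rw [← ENNReal.ofReal_mul (Real.exp_nonneg _), ← ENNReal.ofReal_mul (Real.exp_nonneg _),
          ← ENNReal.ofReal_add (by positivity) (by positivity),
          ← ENNReal.ofReal_mul (Real.exp_nonneg _)]
        congr 1
        have e1 : Real.exp (-(z ^ 2 * V + δ * t / 2)) * Real.exp ((2 * z) ^ 2 * V / 2) =
            Real.exp (z ^ 2 * V - δ * t / 2) := by
          rw [← Real.exp_add]; congr 1; ring
        have e2 : Real.exp (z ^ 2 * V / 2 - δ * t / 2) =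
            Real.exp (-(z ^ 2 * V / 2)) * Real.exp (z ^ 2 * V - δ * t / 2) := by
          rw [← Real.exp_add]; congr 1; ring
        rw [e1, e2]
        ring
    have hn0 : 0 ≤ x ^ n * Real.exp C := by positivity
    rw [← ENNReal.ofReal_mul hn0, ← ENNReal.ofReal_add (by positivity) (by positivity),
      ← ENNReal.ofReal_one, ENNReal.ofReal_le_ofReal_iff (by positivity)] at h4
    refine h4.trans (add_le_add le_rfl (mul_le_mul_of_nonneg_left (Real.exp_le_exp.2 ?_)
      (by positivity)))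
    have : z ^ 2 * V ≤ z ^ 2 * (a * (t + Real.log 8) + M) :=
      mul_le_mul_of_nonneg_left hV (sq_nonneg z)
    linarith
  have hlim : Tendsto (fun t : ℝ => x ^ n * Real.exp C * q w ^ n +
      (1 + q δ ^ n) * Real.exp (z ^ 2 * (a * (t + Real.log 8) + M) / 2 - δ * t / 2)) atTop
        (𝓝 (x ^ n * Real.exp C * q w ^ n + (1 + q δ ^ n) * 0)) := by
    refine tendsto_const_nhds.add (tendsto_const_nhds.mul (Real.tendsto_exp_atBot.comp ?_))
    have e : (fun t : ℝ => z ^ 2 * (a * (t + Real.log 8) + M) / 2 - δ * t / 2) =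
        fun t : ℝ => ((z ^ 2 * a - δ) / 2) * t + z ^ 2 * (a * Real.log 8 + M) / 2 := by
      funext t; ring
    rw [e]
    exact (Tendsto.const_mul_atTop_of_neg (by linarith) tendsto_id).atBot_add tendsto_const_nhds
  have h5 : 1 ≤ x ^ n * Real.exp C * q w ^ n + (1 + q δ ^ n) * 0 :=
    ge_of_tendsto hlim ((eventually_ge_atTop 0).mono key)
  rw [mul_zero, add_zero] at h5
  rw [mul_pow]
  have h6 : Real.exp (-C) * 1 ≤ Real.exp (-C) * (x ^ n * Real.exp C * q w ^ n) :=
    mul_le_mul_of_nonneg_left h5 (Real.exp_nonneg _)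
  have h7 : Real.exp (-C) * (x ^ n * Real.exp C * q w ^ n) = x ^ n * q w ^ n := by
    rw [Real.exp_neg]
    field_simp
  rw [mul_one, h7] at h6
  exact h6

end Pool.Agent.T2h14.CL
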