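import Pool.Agent.T2h14.CL.Avg
import Pool.Agent.T2h14.CL.Eqn
import Pool.Agent.T2h14.CL.Cont

/-!
# Gaussian nesting fields: the main theorem
-/

set_option autoImplicit false

namespace Pool.Agent.T2h14.CL

open MeasureTheory ProbabilityTheory Filter Topology
open scoped ENNReal NNReal

/-- The abstract form of the theorem. -/
theorem abstract {Ω : Type} [MeasurableSpace Ω] {P : Measure Ω} [IsProbabilityMeasure P]
    {T : ℕ → Ω → ℝ} {μ : Measure ℝ} [IsProbabilityMeasure μ] {a m M M' κ c : ℝ}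
    (hκ : 0 < κ) (hc0 : c ≠ 0) (hc : |c| < 1 / 2) (ha : 0 ≤ a)
    (hT : ∀ n, Measurable (T n)) (hA : Averages P T μ a m M M')
    (hq : Moments P T (-(κ * c ^ 2 / 8)) (κ * (1 / 4 - c ^ 2) / 8)
      (fun l => Real.cos (Real.pi * c) / Real.cos (Real.pi * √(c ^ 2 + 8 * l / κ)))) :
    μ = Measure.dirac 0 := by
  have hc2 : 0 < c ^ 2 := by positivity
  have hc4 : c ^ 2 < 1 / 4 := by
    have h1 := abs_lt.1 hc
    nlinarith [h1.1, h1.2]
  set l₀ : ℝ := -(κ * c ^ 2 / 8) with hl₀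
  set l₁ : ℝ := κ * (1 / 4 - c ^ 2) / 8 with hl₁
  have hl₀0 : l₀ < 0 := by
    rw [hl₀]
    have : 0 < κ * c ^ 2 / 8 := by positivity
    linarith
  have hl₁0 : 0 < l₁ := by
    rw [hl₁]
    have : 0 < 1 / 4 - c ^ 2 := by linarith
    positivity
  have hfin : ∀ z, Lap μ z ≠ ∞ := fun z => lap_ne_top hl₀0 hl₁0 hq hT hA z
  -- a neighbourhood of zero
  obtain ⟨ε, hε, hnear⟩ : ∃ ε : ℝ, 0 < ε ∧ ∀ z : ℝ, |z| < ε →
      l₀ < -(m * z + a * z ^ 2 / 2) ∧ -(m * z + a * z ^ 2 / 2) < l₁ ∧ z ^ 2 * a < l₁ / 2 := by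
    have hcont : ContinuousAt (fun z : ℝ => -(m * z + a * z ^ 2 / 2)) 0 := by fun_prop
    have hcont2 : ContinuousAt (fun z : ℝ => z ^ 2 * a) 0 := by fun_prop
    have h1 : ∀ᶠ z : ℝ in 𝓝 0, l₀ < -(m * z + a * z ^ 2 / 2) :=
      hcont.eventually_const_lt (by simpa using hl₀0)
    have h2 : ∀ᶠ z : ℝ in 𝓝 0, -(m * z + a * z ^ 2 / 2) < l₁ :=
      hcont.eventually_lt_const (by simpa using hl₁0)
    have h3 : ∀ᶠ z : ℝ in 𝓝 0, z ^ 2 * a < l₁ / 2 :=
      hcont2.eventually_lt_const (by simpa using half_pos hl₁0)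
    obtain ⟨ε, hε, h⟩ := Metric.eventually_nhds_iff.1 (h1.and (h2.and h3))
    refine ⟨ε, hε, fun z hz => ?_⟩
    have := h (y := z) (by rwa [Real.dist_eq, sub_zero])
    exact ⟨this.1, this.2.1, this.2.2⟩
  -- the equation near zero
  set p : ℝ := 8 * m / κ with hp
  set s : ℝ := 4 * a / κ with hs
  have hs0 : 0 ≤ s := by positivity
  have harg : ∀ z : ℝ, c ^ 2 + 8 * (-(m * z + a * z ^ 2 / 2)) / κ = c ^ 2 - p * z - s * z ^ 2 := by
    intro z
    rw [hp, hs]
    field_simp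
    ring
  have hcosc : 0 < Real.cos (Real.pi * c) := by
    apply Real.cos_pos_of_mem_Ioo
    have h1 := abs_lt.1 hc
    constructor <;> nlinarith [Real.pi_pos, h1.1, h1.2]
  have heq : ∀ z : ℝ, |z| < ε → 0 ≤ c ^ 2 - p * z - s * z ^ 2 ∧
      mgf id μ z * Real.cos (Real.pi * c) = Real.cos (Real.pi * √(c ^ 2 - p * z - s * z ^ 2)) := by
    intro z hz
    obtain ⟨h1, h2, h3⟩ := hnear z hz
    have hnn : 0 ≤ c ^ 2 - p * z - s * z ^ 2 := by
      rw [← harg z]
      have : -(c ^ 2) ≤ 8 * (-(m * z + a * z ^ 2 / 2)) / κ := by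
        rw [le_div_iff₀ hκ]
        rw [hl₀] at h1
        linarith
      linarith
    refine ⟨hnn, ?_⟩
    have h4 := lap_le hq hT hA (hfin z) h1 h2
    have h5 := le_lap hl₀0 hq hT hA (hfin z) h1 h2 (half_pos hl₁0) (half_lt_self hl₁0) h3
    have h6 := le_antisymm h4 h5
    rw [harg z, (lap_toReal μ (hfin z)).2] at h6
    have h7 : Real.cos (Real.pi * √(c ^ 2 - p * z - s * z ^ 2)) ≠ 0 := by
      intro h8
      rw [h8, div_zero, mul_zero] at h6
      exact zero_ne_one h6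
    rw [← mul_div_assoc, div_eq_one_iff_eq h7] at h6
    exact h6
  by_cases hdeg : s = 0 ∧ p = 0
  · -- the degenerate case
    obtain ⟨hs', hp'⟩ := hdeg
    have h1 : ∀ z : ℝ, |z| < ε → mgf id μ z = 1 := by
      intro z hz
      have h2 := (heq z hz).2
      rw [hs', hp', zero_mul, zero_mul, sub_zero, sub_zero, Real.sqrt_sq_eq_abs] at h2
      have h3 : Real.cos (Real.pi * |c|) = Real.cos (Real.pi * c) := by
        rw [← Real.cos_abs (Real.pi * c), abs_mul, abs_of_pos Real.pi_pos]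
      rw [h3] at h2
      exact mul_right_cancel₀ hcosc.ne' (h2.trans (one_mul _).symm)
    have hε2 : |ε / 2| < ε := by rw [abs_of_pos (half_pos hε)]; exact half_lt_self hε
    exact eq_dirac hfin (half_pos hε).ne' (h1 _ hε2) (h1 _ (by rwa [abs_neg]))
  · exfalso
    -- the point `i θ`
    have hD : 0 < s + p ^ 2 / 4 := by
      rcases eq_or_ne p 0 with hp0 | hp0
      · have hs1 : s ≠ 0 := fun h => hdeg ⟨h, hp0⟩
        have : 0 < s := lt_of_le_of_ne hs0 (Ne.symm hs1)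
        positivity
      · positivity
    set θ : ℝ := √((1 - c ^ 2) / (s + p ^ 2 / 4)) with hθ
    have hθ2 : θ ^ 2 * (s + p ^ 2 / 4) = 1 - c ^ 2 := by
      rw [hθ, Real.sq_sqrt (div_nonneg (by linarith) hD.le), div_mul_cancel₀ _ hD.ne']
    set y : ℝ := -(p * θ / 2) with hy
    have hu : arg2 c p s (Complex.I * θ) = (1 + Complex.I * y) ^ 2 := by
      have e1 : arg2 c p s (Complex.I * θ) = (c : ℂ) ^ 2 - p * (Complex.I * θ) + s * θ ^ 2 := by
        rw [arg2, mul_pow, Complex.I_sq]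
        ring
      have e2 : (1 + Complex.I * (y : ℂ)) ^ 2 = 1 + 2 * (Complex.I * y) - (y : ℂ) ^ 2 := by
        rw [add_sq, mul_pow, Complex.I_sq]
        ring
      have e3 : (θ : ℂ) ^ 2 * (s + (p : ℂ) ^ 2 / 4) = 1 - (c : ℂ) ^ 2 := by exact_mod_cast hθ2
      have e4 : (y : ℂ) = -(p * θ / 2) := by rw [hy]; push_cast; ring
      rw [e1, e2, e4]
      linear_combination e3
    have hcon := continuation hfin hc0 hs0 hε heq θ
    rw [hu, cos_root_sq (by simp)] at hcon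
    have hcos : Complex.cos (Real.pi * (1 + Complex.I * y)) = -(Real.cosh (Real.pi * y) : ℂ) := by
      have e1 : (Real.pi : ℂ) * (1 + Complex.I * y) = (Real.pi * y : ℂ) * Complex.I + Real.pi := by
        ring
      rw [e1, Complex.cos_add_pi, Complex.cos_mul_I]
      push_cast
      rfl
    rw [hcos] at hcon
    have hnorm := congrArg norm hcon
    rw [norm_neg, norm_mul, Complex.norm_real, Real.norm_of_nonneg (Real.cosh_pos _).le] at hnorm
    have h1 : ‖complexMGF id μ (Complex.I * θ)‖ ≤ 1 := by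
      refine norm_complexMGF_le_mgf.trans ?_
      simp
    have h2 : ‖Complex.cos (Real.pi * c)‖ < 1 := by
      have e : Complex.cos (Real.pi * c) = ((Real.cos (Real.pi * c) : ℝ) : ℂ) := by push_cast; rfl
      rw [e, Complex.norm_real, Real.norm_of_nonneg hcosc.le]
      refine lt_of_le_of_ne (Real.cos_le_one _) (fun h3 => ?_)
      rw [Real.cos_eq_one_iff_of_lt_of_lt] at h3
      · exact hc0 ((mul_eq_zero.1 h3).resolve_left Real.pi_pos.ne')
      · have h1 := abs_lt.1 hc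
        nlinarith [Real.pi_pos, h1.1, h1.2]
      · have h1 := abs_lt.1 hc
        nlinarith [Real.pi_pos, h1.1, h1.2]
    have h3 : ‖complexMGF id μ (Complex.I * θ)‖ * ‖Complex.cos (Real.pi * c)‖ < 1 := by
      calc ‖complexMGF id μ (Complex.I * θ)‖ * ‖Complex.cos (Real.pi * c)‖
          ≤ 1 * ‖Complex.cos (Real.pi * c)‖ :=
            mul_le_mul_of_nonneg_right h1 (norm_nonneg _)
        _ < 1 := by rwa [one_mul]
    rw [hnorm] at h3
    exact absurd (Real.one_le_cosh _) (not_le.2 h3)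

/-- The main theorem. -/
theorem main {N : Data} {κ : ℝ} {μ : Measure ℝ} [IsProbabilityMeasure μ] {D : Set ℂ} {z₀ : ℂ}
    {φ : ℂ → ℝ} (h1 : 8 / 3 < κ) (h2 : κ < 8) (h4 : κ ≠ 4) (hφ : IsMollifier φ) (hD : IsDom D)
    (hz₀ : z₀ ∈ D) (hK : Koebe z₀ φ) (hN : N.IsNestingField κ μ D z₀ φ)
    (hG : N.IsGaussianField D) : μ = Measure.dirac 0 := by
  obtain ⟨a, M, M', ha, hA⟩ := averages hφ hD hz₀ hK hN hG
  have := hN.loops.prob
  have hκ : 0 < κ := by linarith
  have hc0 : 1 - 4 / κ ≠ 0 := by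
    intro h
    apply h4
    field_simp at h
    linarith
  have hc : |1 - 4 / κ| < 1 / 2 := by
    rw [abs_lt]
    constructor
    · have : 4 / κ < 3 / 2 := by rw [div_lt_iff₀ hκ]; linarith
      linarith
    · have : 1 / 2 < 4 / κ := by rw [lt_div_iff₀ hκ]; linarith
      linarith
  refine abstract hκ hc0 hc ha hN.loops.meas hA (fun n l hl0 hl1 => ?_)
  refine hN.radii n l hl0 (hl1.trans_le (le_of_eq ?_))
  field_simp
  ring

end Pool.Agent.T2h14.CL
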