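import Mathlib

/-!
# Nesting fields of conformal loop ensembles: the data and the known facts

The nested conformal loop ensemble in a simply connected domain `D`, the loops around a point `z₀`,
the nesting field `h` and the laws of its pairings with test functions.
-/

set_option autoImplicit false

namespace Pool.Agent.T2h14.CL

open MeasureTheory ProbabilityTheory
open scoped ENNReal NNReal

/-- `U` is a simply connected domain of the complex plane, and not the whole plane. -/
def IsDom (U : Set ℂ) : Prop :=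
  IsOpen U ∧ SimplyConnectedSpace U ∧ U ≠ Set.univ

/-- `g` is infinitely differentiable (as a function of two real variables). -/
def Smooth (g : ℂ → ℝ) : Prop := ContDiff ℝ ((⊤ : ℕ∞) : WithTop ℕ∞) g

/-- `g` is a test function on `U`: smooth, with compact support in `U`. -/
def IsTest (U : Set ℂ) (g : ℂ → ℝ) : Prop :=
  Smooth g ∧ HasCompactSupport g ∧ tsupport g ⊆ U

/-- The conformal radius of `U` seen from `z`: the supremum of `|f'(0)|` over the holomorphic maps
`f` of the unit disk to `U` with `f 0 = z`. -/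
noncomputable def confRadius (U : Set ℂ) (z : ℂ) : ℝ :=
  sSup {x : ℝ | ∃ f : ℂ → ℂ, DifferentiableOn ℂ f (Metric.ball 0 1) ∧
    Set.MapsTo f (Metric.ball 0 1) U ∧ f 0 = z ∧ x = ‖deriv f 0‖}

/-- `φ` is a mollifier: smooth, nonnegative, with support in the closed unit disk and integral
`1`. -/
structure IsMollifier (φ : ℂ → ℝ) : Prop where
  smooth : Smooth φ
  nonneg : ∀ z, 0 ≤ φ z
  supp : tsupport φ ⊆ Metric.closedBall 0 1
  total : ∫ z, φ z = 1

/-- The mollifier at scale `r` around `z₀`: `φ_r z = r⁻² φ ((z - z₀) / r)`. -/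
noncomputable def scaled (φ : ℂ → ℝ) (z₀ : ℂ) (r : ℝ) (z : ℂ) : ℝ :=
  (r⁻¹) ^ 2 * φ ((z - z₀) / r)

/-- The average `∫ φ_r(z) log CR(z; U) dz` of the logarithm of the conformal radius. -/
noncomputable def avLog (φ : ℂ → ℝ) (z₀ : ℂ) (r : ℝ) (U : Set ℂ) : ℝ :=
  ∫ z, scaled φ z₀ r z * Real.log (confRadius U z)

/-- The law of the sum of `n` independent weights with law `μ`. -/
noncomputable def sumLaw (μ : Measure ℝ) : ℕ → Measure ℝ
  | 0 => Measure.dirac 0
  | n + 1 => Measure.conv (sumLaw μ n) μ

/-- The data: a probability space, for every `n` the component `dom n` around `z₀` of the interior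
of the `n`-th loop around `z₀` of the nested conformal loop ensemble in `D` (`dom 0 = D`), the
pairings `X g = (h, g)` of the nesting field with the test functions, and for every simply connected
domain `U` the law `law U g` of the pairing with `g` of the nesting field in `U`. -/
structure Data where
  Ω : Type
  mΩ : MeasurableSpace Ω
  P : @Measure Ω mΩ
  dom : ℕ → Ω → Set ℂ
  X : (ℂ → ℝ) → Ω → ℝ
  law : Set ℂ → (ℂ → ℝ) → Measure ℝ

instance (N : Data) : MeasurableSpace N.Ω := N.mΩ

namespace Data

variable (N : Data)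

/-- `T n = log CR(z₀; D) - log CR(z₀; dom n)`. -/
noncomputable def T (D : Set ℂ) (z₀ : ℂ) (n : ℕ) (ω : N.Ω) : ℝ :=
  Real.log (confRadius D z₀) - Real.log (confRadius (N.dom n ω) z₀)

/-- The event that the conformal radius of `dom n` is at least `8 r`. -/
def Large (z₀ : ℂ) (n : ℕ) (r : ℝ) : Set N.Ω :=
  {ω | 8 * r ≤ confRadius (N.dom n ω) z₀}

/-- The drift `E ξ / E T₁`. -/
noncomputable def drift (μ : Measure ℝ) (D : Set ℂ) (z₀ : ℂ) : ℝ :=
  (∫ x, x ∂μ) / ∫ ω, N.T D z₀ 1 ω ∂N.P

/-- The loops around `z₀`: the nested simply connected domains `dom n`, starting from `D`. -/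
structure Loops (D : Set ℂ) (z₀ : ℂ) : Prop where
  prob : IsProbabilityMeasure N.P
  zero : ∀ ω, N.dom 0 ω = D
  isDom : ∀ n ω, IsDom (N.dom n ω)
  mem : ∀ n ω, z₀ ∈ N.dom n ω
  nested : ∀ n ω, N.dom (n + 1) ω ⊆ N.dom n ω
  meas : ∀ n, Measurable (N.T D z₀ n)

/-- The theorem of Schramm, Sheffield and Wilson on the conformal radii: `T n` is the sum of `n`
independent copies of `T 1`, and with `c = 1 - 4/κ` one has
`E exp (l T_n) = (cos (π c) / cos (π √(c² + 8 l / κ))) ^ n`
for `- κ c² / 8 < l < 1 - 2/κ - 3κ/32`. -/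
def Radii (κ : ℝ) (D : Set ℂ) (z₀ : ℂ) : Prop :=
  ∀ (n : ℕ) (l : ℝ), -(κ * (1 - 4 / κ) ^ 2 / 8) < l → l < 1 - 2 / κ - 3 * κ / 32 →
    Integrable (fun ω => Real.exp (l * N.T D z₀ n ω)) N.P ∧
    ∫ ω, Real.exp (l * N.T D z₀ n ω) ∂N.P =
      (Real.cos (Real.pi * (1 - 4 / κ)) /
        Real.cos (Real.pi * √((1 - 4 / κ) ^ 2 + 8 * l / κ))) ^ n

/-- The nesting fields of all simply connected domains: `law U g` is the law of the pairing of the
nesting field in `U` with the test function `g`; it is centred with finite variance; it is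
conformally invariant (by the Riemann mapping theorem a conformal map `V → U` exists, and `g'` is the
pull-back of `g` as a density). -/
structure Field (D : Set ℂ) : Prop where
  meas : ∀ g, IsTest D g → Measurable (N.X g)
  map : ∀ g, IsTest D g → N.P.map (N.X g) = N.law D g
  sq : ∀ U g, IsDom U → IsTest U g → Integrable (fun x => x ^ 2) (N.law U g)
  centred : ∀ U g, IsDom U → IsTest U g → ∫ x, x ∂(N.law U g) = 0
  conf : ∀ U V g, IsDom U → IsDom V → IsTest U g → ∃ g', IsTest V g' ∧ N.law V g' = N.law U g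

/-- The covariance of the nesting field has a logarithmic singularity: the variance of its average
at scale `r` around `z₀` is `a log (CR / r) + O(1)`. -/
def LogVariance (z₀ : ℂ) (φ : ℂ → ℝ) : Prop :=
  ∃ a M : ℝ, 0 ≤ a ∧ ∀ (U : Set ℂ) (r : ℝ), IsDom U → z₀ ∈ U → 0 < r → 8 * r ≤ confRadius U z₀ →
    |∫ x, x ^ 2 ∂(N.law U (scaled φ z₀ r)) - a * Real.log (confRadius U z₀ / r)| ≤ M

/-- The Markov property of the nested conformal loop ensemble with independent weights: given the
first `n` loops around `z₀`, on the event that `CR(z₀; dom n) ≥ 8 r` (so that the disk of radius `r`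
lies in `dom n`), the average `(h, φ_r)` is the sum of the `n` weights, of the pairing with `φ_r` of an
independent nesting field in `dom n`, and of the correction for the centring,
`- (E ξ / E T₁) ∫ φ_r(z) (log CR(z; D) - log CR(z; dom n)) dz`. -/
def Markov (μ : Measure ℝ) (D : Set ℂ) (z₀ : ℂ) (φ : ℂ → ℝ) : Prop :=
  ∀ (n : ℕ) (r : ℝ), 0 < r → ∀ F : ℝ → ℝ≥0∞, Measurable F →
    ∫⁻ ω in N.Large z₀ n r, F (N.X (scaled φ z₀ r) ω) ∂N.P =
    ∫⁻ ω in N.Large z₀ n r, (∫⁻ s, ∫⁻ y,
      F (s - N.drift μ D z₀ * (avLog φ z₀ r D - avLog φ z₀ r (N.dom n ω)) + y)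
        ∂(N.law (N.dom n ω) (scaled φ z₀ r)) ∂(sumLaw μ n)) ∂N.P

/-- `N` is the nesting field of the nested conformal loop ensemble with parameter `κ` in `D` with
weight distribution `μ`, with the known facts on it. -/
structure IsNestingField (κ : ℝ) (μ : Measure ℝ) (D : Set ℂ) (z₀ : ℂ) (φ : ℂ → ℝ) : Prop where
  loops : N.Loops D z₀
  radii : N.Radii κ D z₀
  field : N.Field D
  logVariance : N.LogVariance z₀ φ
  markov : N.Markov μ D z₀ φ

/-- The pairing of the field in `D` with every test function is a Gaussian variable. (The pairing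
is linear in the test function, so this says that the field is a Gaussian process.) -/
def IsGaussianField (D : Set ℂ) : Prop :=
  ∀ g, IsTest D g → ∃ (x : ℝ) (v : ℝ≥0), N.law D g = gaussianReal x v

end Data

/-- The theorems of Koebe on simply connected domains, for the conformal radius `R` from `z₀` of
`U`: `R > 0`; if `8 r ≤ R` then the closed disk of radius `r` around `z₀` lies in `U`, and the average
of `log CR(z; U)` at scale `r` differs from `log R` by a bounded quantity. -/
structure Koebe (z₀ : ℂ) (φ : ℂ → ℝ) : Prop where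
  pos : ∀ U, IsDom U → z₀ ∈ U → 0 < confRadius U z₀
  disk : ∀ U r, IsDom U → z₀ ∈ U → 0 < r → 8 * r ≤ confRadius U z₀ → Metric.closedBall z₀ r ⊆ U
  average : ∃ M : ℝ, ∀ U r, IsDom U → z₀ ∈ U → 0 < r → 8 * r ≤ confRadius U z₀ →
    |avLog φ z₀ r U - Real.log (confRadius U z₀)| ≤ M

end Pool.Agent.T2h14.CL
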